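import Mathlib

/-!
# H21C, module C of the project `strongly maximal matchings` (MP_fc2b6d_co, helper70)

Set-theoretic tools. The stages are the elements of a well-ordered type `I` whose order type is an
uncountable regular cardinal: `[LinearOrder I] [WellFoundedLT I] [IsRegularCardinalOrder I]` and
`hI : ℵ₀ < #I`. `Small` means `#· < #I`.
-/

set_option autoImplicit false
set_option linter.unusedSectionVars false
set_option linter.style.haveILetI false
set_option linter.unusedVariables false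

namespace H21C

open Cardinal Order Ordinal Set

universe u

variable {I : Type u} [LinearOrder I] [WellFoundedLT I] [IsRegularCardinalOrder I]

theorem c1_regular (hI : ℵ₀ < #I) : (#I).IsRegular := by
  refine ⟨hI.le, ?_⟩
  rw [Cardinal.ord_cardinalMk, Ordinal.cof_type, cof_eq_cardinalMk]

theorem c1_cof (hI : ℵ₀ < #I) : cof I ≠ ℵ₀ := by
  rw [cof_eq_cardinalMk]
  exact hI.ne'

theorem c1_nonempty (hI : ℵ₀ < #I) : Nonempty I := by
  rw [← mk_ne_zero_iff]
  intro h
  rw [h] at hI
  exact absurd hI (not_lt.2 (by simp))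

theorem c1_noMax (hI : ℵ₀ < #I) : NoMaxOrder I := by
  haveI := c1_nonempty hI
  rw [← noTopOrder_iff_noMaxOrder]
  cases topOrderOrNoTopOrder I with
  | inl h =>
    have h1 : cof I ≤ 1 := by
      simp
    rw [cof_eq_cardinalMk] at h1
    exact absurd (hI.trans_le h1) (not_lt.2 one_le_aleph0)
  | inr h => exact h

/-- A small family of stages is strictly bounded. -/
theorem c1_bdd (hI : ℵ₀ < #I) {J : Type u} (hJ : #J < #I) (f : J → I) : ∃ i, ∀ j, f j < i := by
  haveI := c1_noMax hI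
  have h : ¬ IsCofinal (range f) := by
    intro h
    have := cof_le h
    rw [cof_eq_cardinalMk] at this
    exact absurd (this.trans mk_range_le) (not_le.2 hJ)
  rw [not_isCofinal_iff] at h
  obtain ⟨i, hi⟩ := h
  exact ⟨i, fun j => hi (f j) ⟨j, rfl⟩⟩

theorem c1_iio (hI : ℵ₀ < #I) (a : I) : #(Iio a) < #I :=
  mk_Iio_lt a Cardinal.ord_cardinalMk

theorem c1_iic (hI : ℵ₀ < #I) (a : I) : #(Iic a) < #I := by
  haveI := c1_noMax hI
  obtain ⟨b, hb⟩ := exists_gt a
  exact (mk_le_mk_of_subset (fun x hx => lt_of_le_of_lt hx hb)).trans_lt (c1_iio hI b)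

/-- Small unions of small sets are small. -/
theorem c1_iUnion (hI : ℵ₀ < #I) {J V : Type u} (hJ : #J < #I) (s : J → Set V)
    (hs : ∀ j, #(s j) < #I) : #(⋃ j, s j) < #I := by
  refine (mk_iUnion_le _).trans_lt ?_
  refine mul_lt_of_lt hI.le hJ ?_
  apply iSup_lt_of_lt_cof_ord _ hs
  rw [(c1_regular hI).cof_ord]
  exact hJ

theorem c1_biUnion (hI : ℵ₀ < #I) {V : Type u} (a : I) (s : I → Set V)
    (hs : ∀ b < a, #(s b) < #I) : #(⋃ b ∈ Iio a, s b) < #I := by
  rw [biUnion_eq_iUnion]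
  exact c1_iUnion hI (c1_iio hI a) _ (fun b => hs b.1 b.2)

theorem c1_union (hI : ℵ₀ < #I) {V : Type u} {s t : Set V} (hs : #s < #I) (ht : #t < #I) :
    #(s ∪ t : Set V) < #I :=
  (mk_union_le s t).trans_lt (add_lt_of_lt hI.le hs ht)

theorem c1_finite (hI : ℵ₀ < #I) {V : Type u} {s : Set V} (hs : s.Finite) : #s < #I :=
  (lt_aleph0_iff_set_finite.2 hs).trans hI

theorem c1_countable (hI : ℵ₀ < #I) {V : Type u} {s : Set V} (hs : s.Countable) : #s < #I :=
  (le_aleph0_iff_set_countable.2 hs).trans_lt hI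

/-- A cofinal set of stages has full cardinality. -/
theorem c1_mk_cofinal {s : Set I} (hs : IsCofinal s) : #s = #I := by
  refine le_antisymm (mk_set_le s) ?_
  have := cof_le hs
  rwa [cof_eq_cardinalMk] at this

/-- Closure under a small-valued function. -/
theorem c1_closure (hI : ℵ₀ < #I) {V : Type u} (g : V → Set V) (hg : ∀ v, #(g v) < #I)
    (Y : Set V) (hY : #Y < #I) : ∃ Z : Set V, Y ⊆ Z ∧ #Z < #I ∧ ∀ v ∈ Z, g v ⊆ Z := by
  let step : Set V → Set V := fun S => S ∪ ⋃ v : S, g v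
  have hstep : ∀ S : Set V, #S < #I → #(step S) < #I := fun S hS =>
    c1_union hI hS (c1_iUnion hI hS _ fun v => hg v.1)
  let Zn : ℕ → Set V := fun n => Nat.rec Y (fun _ S => step S) n
  have hZ0 : Zn 0 = Y := rfl
  have hZs : ∀ n, Zn (n + 1) = step (Zn n) := fun n => rfl
  have hZn : ∀ n, #(↥(Zn n)) < #I := by
    intro n
    induction n with
    | zero => exact hY
    | succ n ih => exact hstep _ ih
  refine ⟨⋃ n, Zn n, subset_iUnion Zn 0, ?_, ?_⟩
  · have h : (⋃ n, Zn n) = ⋃ n : ULift.{u} ℕ, Zn n.down := by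
      ext x
      simp only [mem_iUnion]
      exact ⟨fun ⟨n, hn⟩ => ⟨⟨n⟩, hn⟩, fun ⟨n, hn⟩ => ⟨n.down, hn⟩⟩
    rw [h]
    refine c1_iUnion hI ?_ _ fun n => hZn n.down
    simpa using hI
  · intro v hv
    obtain ⟨n, hn⟩ := mem_iUnion.1 hv
    refine subset_trans ?_ (subset_iUnion Zn (n + 1))
    rw [hZs]
    exact subset_trans (subset_iUnion (fun w : Zn n => g w.1) ⟨v, hn⟩) subset_union_right

end H21C
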