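import Pool.Agent.Lib.H21C.C1

/-!
# H21C, C2: clubs of closure points, diagonal intersections

`W : I → Set J` is a continuous increasing chain of small sets (`IsChainC`).
-/

set_option autoImplicit false
set_option linter.unusedSectionVars false
set_option linter.style.haveILetI false
set_option linter.unusedVariables false

namespace H21C

open Cardinal Order Ordinal Set

universe u

variable {I : Type u} [LinearOrder I] [WellFoundedLT I] [IsRegularCardinalOrder I]

/-- Continuous increasing chain of small sets. Continuity: an element of `W a` with `a` not the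
bottom and not a successor lies in an earlier `W b`. -/
structure IsChainC {J : Type u} (W : I → Set J) : Prop where
  mono : Monotone W
  small : ∀ a, #(W a) < #I
  cont : ∀ a, (∃ b, b < a) → (∀ b < a, ∃ c, b < c ∧ c < a) → W a ⊆ ⋃ b ∈ Iio a, W b

/-- If `x` is the least upper bound of a nonempty set `t` and `x ∉ t` then `x` is a limit. -/
theorem c2_limit {t : Set I} {x : I} (ht : t.Nonempty) (hx : IsLUB t x) (hxt : x ∉ t) :
    (∃ b, b < x) ∧ ∀ b < x, ∃ c ∈ t, b < c ∧ c < x := by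
  obtain ⟨y, hy⟩ := ht
  have hlt : ∀ z ∈ t, z < x := fun z hz =>
    lt_of_le_of_ne (hx.1 hz) (fun h => hxt (h ▸ hz))
  refine ⟨⟨y, hlt y hy⟩, fun b hb => ?_⟩
  obtain ⟨c, hc, hbc⟩ := (lt_isLUB_iff hx).1 hb
  exact ⟨c, hc, hbc, hlt c hc⟩

theorem c2_chain_mem {J : Type u} {W : I → Set J} (hW : IsChainC W) {t : Set I} {x : I}
    (ht : t.Nonempty) (hx : IsLUB t x) (hxt : x ∉ t) {j : J} (hj : j ∈ W x) :
    ∃ c ∈ t, c < x ∧ j ∈ W c := by
  obtain ⟨h1, h2⟩ := c2_limit ht hx hxt
  have h3 := hW.cont x h1 (fun b hb => (h2 b hb).imp fun c hc => hc.2) hj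
  simp only [mem_iUnion, mem_Iio, exists_prop] at h3
  obtain ⟨b, hb, hjb⟩ := h3
  obtain ⟨c, hc, hbc, hcx⟩ := h2 b hb
  exact ⟨c, hc, hcx, hW.mono hbc.le hjb⟩

/-- Bounded nonempty sets of stages have a least upper bound. -/
theorem c2_lub {t : Set I} (hb : ∃ b, ∀ z ∈ t, z ≤ b) : ∃ x, IsLUB t x := by
  have hne : (upperBounds t).Nonempty := by
    obtain ⟨b, hb⟩ := hb
    exact ⟨b, fun z hz => hb z hz⟩
  exact ⟨WellFounded.min wellFounded_lt (upperBounds t) hne,
    WellFounded.min_mem _ _ hne, fun y hy => WellFounded.min_le _ hy⟩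

theorem c2_seq (hI : ℵ₀ < #I) (g : ℕ → I) : ∃ x, IsLUB (range g) x := by
  have h : #(ULift.{u} ℕ) < #I := by simpa using hI
  obtain ⟨i, hi⟩ := c1_bdd hI h (fun n : ULift.{u} ℕ => g n.down)
  apply c2_lub
  refine ⟨i, ?_⟩
  rintro _ ⟨n, rfl⟩
  exact (hi ⟨n⟩).le

/-- If `g` is strictly increasing with supremum `x` then `x` is a limit and not in the range. -/
theorem c2_seq_lt {g : ℕ → I} (hg : StrictMono g) {x : I} (hx : IsLUB (range g) x) (n : ℕ) :
    g n < x :=
  lt_of_lt_of_le (hg (Nat.lt_succ_self n)) (hx.1 ⟨n + 1, rfl⟩)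

/-- Diagonal intersection of clubs along a continuous chain of small index sets. -/
theorem c2_diag (hI : ℵ₀ < #I) {J : Type u} {W : I → Set J} (hW : IsChainC W) (C : J → Set I)
    (hC : ∀ j, IsClub (C j)) : IsClub {a | ∀ j ∈ W a, a ∈ C j} := by
  haveI := c1_noMax hI
  haveI := c1_nonempty hI
  constructor
  · rw [dirSupClosed_iff_of_linearOrder]
    intro t hts ht x hx
    by_cases hxt : x ∈ t
    · exact hts hxt
    intro j hj
    obtain ⟨c, hc, hcx, hjc⟩ := c2_chain_mem hW ht hx hxt hj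
    have hlub : IsLUB (t ∩ Ici c) x := by
      refine ⟨fun z hz => hx.1 hz.1, fun y hy => ?_⟩
      apply hx.2
      intro z hz
      rcases le_total c z with h | h
      · exact hy ⟨hz, h⟩
      · exact h.trans (hy ⟨hc, le_rfl⟩)
    refine (hC j).isLUB_mem (t := t ∩ Ici c) ?_ ⟨c, hc, le_rfl⟩ hlub
    intro z hz
    exact hts hz.1 j (hW.mono hz.2 hjc)
  · intro a
    -- one step
    have step : ∀ b : I, ∃ c, b < c ∧ ∀ j ∈ W b, ∃ d ∈ C j, b ≤ d ∧ d < c := by
      intro b
      choose f hf using fun j : W b => (hC j.1).isCofinal b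
      obtain ⟨c, hc⟩ := c1_bdd hI (hW.small b) f
      obtain ⟨c', hc'⟩ := exists_gt b
      refine ⟨max c c', ?_, ?_⟩
      · exact lt_of_lt_of_le hc' (le_max_right _ _)
      · intro j hj
        exact ⟨f ⟨j, hj⟩, (hf ⟨j, hj⟩).1, (hf ⟨j, hj⟩).2,
          lt_of_lt_of_le (hc ⟨j, hj⟩) (le_max_left _ _)⟩
    choose nx hnx1 hnx2 using step
    let g : ℕ → I := fun n => Nat.rec a (fun _ b => nx b) n
    have hgs : ∀ n, g (n + 1) = nx (g n) := fun n => rfl
    have hg : StrictMono g := strictMono_nat_of_lt_succ fun n => by rw [hgs]; exact hnx1 _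
    obtain ⟨x, hx⟩ := c2_seq hI g
    have hxr : x ∉ range g := by
      rintro ⟨n, rfl⟩
      exact lt_irrefl _ (c2_seq_lt hg hx n)
    refine ⟨x, ?_, hx.1 ⟨0, rfl⟩⟩
    intro j hj
    obtain ⟨c, ⟨m, rfl⟩, hcx, hjc⟩ := c2_chain_mem hW (range_nonempty g) hx hxr hj
    have h1 : ∀ n, ∃ d ∈ C j, g (m + n) ≤ d ∧ d < g (m + n + 1) := by
      intro n
      rw [hgs]
      exact hnx2 (g (m + n)) j (hW.mono (hg.monotone (Nat.le_add_right m n)) hjc)
    choose d hd1 hd2 hd3 using h1
    have hlub : IsLUB (range d) x := by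
      constructor
      · rintro _ ⟨n, rfl⟩
        exact (hd3 n).le.trans (hx.1 ⟨m + n + 1, rfl⟩)
      · intro y hy
        apply hx.2
        rintro _ ⟨n, rfl⟩
        rcases le_total m n with h | h
        · obtain ⟨k, rfl⟩ := Nat.exists_eq_add_of_le h
          exact (hd2 k).trans (hy ⟨k, rfl⟩)
        · exact (hg.monotone h).trans ((hd2 0).trans (hy ⟨0, rfl⟩))
    refine (hC j).isLUB_mem (t := range d) ?_ (range_nonempty d) hlub
    rintro _ ⟨n, rfl⟩
    exact hd1 n

/-- The closure points of a function. -/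
theorem c2_closure_club (hI : ℵ₀ < #I) {J : Type u} {W : I → Set J} (hW : IsChainC W)
    (g : J → I) : IsClub {a | ∀ j ∈ W a, g j < a} := by
  haveI := c1_noMax hI
  apply c2_diag hI hW (fun j => {a | g j < a})
  intro j
  constructor
  · rw [dirSupClosed_iff_of_linearOrder]
    intro t hts ht x hx
    obtain ⟨y, hy⟩ := ht
    exact lt_of_lt_of_le (hts hy) (hx.1 hy)
  · intro a
    obtain ⟨b, hb⟩ := exists_gt (max a (g j))
    exact ⟨b, lt_of_le_of_lt (le_max_right _ _) hb, ((le_max_left _ _).trans hb.le)⟩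

/-- Pairs along a continuous chain. -/
theorem c2_chain_prod (hI : ℵ₀ < #I) {J K : Type u} {W : I → Set J} {W' : I → Set K}
    (hW : IsChainC W) (hW' : IsChainC W') : IsChainC (fun a => W a ×ˢ W' a) := by
  refine ⟨fun a b hab => prod_mono (hW.mono hab) (hW'.mono hab), fun a => ?_, fun a h1 h2 => ?_⟩
  · rw [mk_setProd]
    exact mul_lt_of_lt hI.le (hW.small a) (hW'.small a)
  · rintro ⟨j, k⟩ ⟨hj, hk⟩
    have h3 := hW.cont a h1 h2 hj
    have h4 := hW'.cont a h1 h2 hk
    simp only [mem_iUnion, mem_Iio, exists_prop] at h3 h4 ⊢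
    obtain ⟨b, hb, hb'⟩ := h3
    obtain ⟨c, hc, hc'⟩ := h4
    exact ⟨max b c, max_lt hb hc, hW.mono (le_max_left _ _) hb', hW'.mono (le_max_right _ _) hc'⟩

/-- Normality for stationary sets: `S j` is a set of stages for each `j`; there is a club on which
every `j ∈ W a` with `a ∈ S j` has `S j` stationary. -/
theorem c2_popular (hI : ℵ₀ < #I) {J : Type u} {W : I → Set J} (hW : IsChainC W)
    (S : J → Set I) :
    ∃ C : Set I, IsClub C ∧ ∀ a ∈ C, ∀ j ∈ W a, a ∈ S j → IsStationary (S j) := by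
  classical
  have h : ∀ j, ∃ C : Set I, IsClub C ∧ (¬ IsStationary (S j) → Disjoint (S j) C) := by
    intro j
    by_cases hj : IsStationary (S j)
    · exact ⟨univ, .univ, fun h => absurd hj h⟩
    · obtain ⟨t, ht1, ht2⟩ := not_isStationary_iff.1 hj
      exact ⟨t, ht1, fun _ => ht2⟩
  choose C hC1 hC2 using h
  refine ⟨_, c2_diag hI hW C hC1, ?_⟩
  intro a ha j hj haj
  by_contra hn
  exact disjoint_left.1 (hC2 j hn) haj (ha j hj)

/-- Stationary sets intersected with clubs are stationary. -/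
theorem c2_stat_inter (hI : ℵ₀ < #I) {S C : Set I} (hS : IsStationary S) (hC : IsClub C) :
    IsStationary (S ∩ C) := by
  intro t ht
  have := hS (hC.inter (c1_cof hI) ht)
  rwa [← inter_assoc] at this

/-- Stationary sets are cofinal. -/
theorem c2_stat_cofinal (hI : ℵ₀ < #I) {S : Set I} (hS : IsStationary S) : IsCofinal S := by
  haveI := c1_noMax hI
  intro a
  have hC : IsClub {b : I | a < b} := by
    constructor
    · rw [dirSupClosed_iff_of_linearOrder]
      intro t hts ht x hx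
      obtain ⟨y, hy⟩ := ht
      exact lt_of_lt_of_le (hts hy) (hx.1 hy)
    · intro c
      obtain ⟨b, hb⟩ := exists_gt (max a c)
      exact ⟨b, lt_of_le_of_lt (le_max_left _ _) hb, ((le_max_right _ _).trans hb.le)⟩
  obtain ⟨b, hb1, hb2⟩ := hS hC
  exact ⟨b, hb1, le_of_lt hb2⟩

end H21C
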