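import Pool.Agent.Lib.H21C.C2

/-!
# H21C, C3: injective choice, eventually constant predicates, exhausting `V`
-/

set_option autoImplicit false
set_option linter.unusedSectionVars false
set_option linter.style.haveILetI false
set_option linter.unusedVariables false

namespace H21C

open Cardinal Order Ordinal Set

universe u

variable {I : Type u} [LinearOrder I] [WellFoundedLT I] [IsRegularCardinalOrder I]

/-- Injective choice of stages indexed by `I` itself. -/
theorem c3_choice_self (hI : ℵ₀ < #I) (P : I → Set I) (hP : ∀ j, IsCofinal (P j)) :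
    ∃ f : I → I, StrictMono f ∧ ∀ j, f j ∈ P j := by
  haveI := c1_noMax hI
  have key : ∀ (j : I) (g : ∀ k, k < j → I), ∃ x ∈ P j, ∀ k (hk : k < j), g k hk < x := by
    intro j g
    obtain ⟨b, hb⟩ := c1_bdd hI (c1_iio hI j) (fun k : Iio j => g k.1 k.2)
    obtain ⟨x, hx, hbx⟩ := hP j b
    exact ⟨x, hx, fun k hk => lt_of_lt_of_le (hb ⟨k, hk⟩) hbx⟩
  choose F hF1 hF2 using key
  let f : I → I := WellFounded.fix wellFounded_lt F
  have hf : ∀ j, f j = F j (fun k _ => f k) := fun j => WellFounded.fix_eq _ _ _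
  refine ⟨f, ?_, ?_⟩
  · intro k j hkj
    rw [hf j]
    exact hF2 j (fun k _ => f k) k hkj
  · intro j
    rw [hf j]
    exact hF1 j _

/-- Injective choice: `#J ≤ #I`, every `P j` cofinal. -/
theorem c3_choice (hI : ℵ₀ < #I) {J : Type u} (hJ : #J ≤ #I) (P : J → Set I)
    (hP : ∀ j, IsCofinal (P j)) : ∃ f : J → I, Function.Injective f ∧ ∀ j, f j ∈ P j := by
  classical
  obtain ⟨e⟩ := (Cardinal.le_def J I).1 hJ
  obtain ⟨f, hf1, hf2⟩ := c3_choice_self hI
    (fun i => if h : ∃ j, e j = i then P h.choose else Set.univ) (by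
      intro i
      by_cases h : ∃ j, e j = i
      · simp only [h, dif_pos]
        exact hP _
      · simp only [h, dif_neg, not_false_iff]
        exact .univ)
  refine ⟨fun j => f (e j), fun a b hab => e.injective (hf1.injective hab), fun j => ?_⟩
  have h := hf2 (e j)
  have hex : ∃ j', e j' = e j := ⟨j, rfl⟩
  rw [dif_pos hex] at h
  have : hex.choose = j := e.injective hex.choose_spec
  rw [this] at h
  exact h

/-- A club inside a club on which a downward monotone predicate is eventually constant: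
`p j b → p j a` for `a ≤ b` in `C` with `j ∈ W a`. Then on the smaller club
`p j a` implies `p j b` for all later `b ∈ C`. -/
theorem c3_stable (hI : ℵ₀ < #I) {J : Type u} {W : I → Set J} (hW : IsChainC W) {C : Set I}
    (hC : IsClub C) (p : J → I → Prop)
    (hp : ∀ j, ∀ a ∈ C, ∀ b ∈ C, a ≤ b → j ∈ W a → p j b → p j a) :
    ∃ C1 : Set I, IsClub C1 ∧ C1 ⊆ C ∧ ∀ a ∈ C1, ∀ j ∈ W a, p j a → ∀ b ∈ C, a ≤ b → p j b := by
  classical
  haveI := c1_nonempty hI
  have h : ∀ j, ∃ g : I, (∃ b ∈ C, j ∈ W b ∧ ¬ p j b) → g ∈ C ∧ j ∈ W g ∧ ¬ p j g := by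
    intro j
    by_cases hj : ∃ b ∈ C, j ∈ W b ∧ ¬ p j b
    · obtain ⟨b, hb⟩ := hj
      exact ⟨b, fun _ => hb⟩
    · exact ⟨Classical.arbitrary I, fun h => absurd h hj⟩
  choose g hg using h
  refine ⟨C ∩ {a | ∀ j ∈ W a, g j < a}, hC.inter (c1_cof hI) (c2_closure_club hI hW g),
    inter_subset_left, ?_⟩
  intro a ha j hj hpa b hb hab
  by_contra hpb
  obtain ⟨h1, h2, h3⟩ := hg j ⟨b, hb, hW.mono hab hj, hpb⟩
  exact h3 (hp j (g j) h1 a ha.1 (ha.2 j hj).le h2 hpa)

/-- If `#V ≤ #I` there is a family of small sets exhausting `V`. -/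
theorem c3_exhaust (hI : ℵ₀ < #I) {V : Type u} (hV : #V ≤ #I) :
    ∃ E : I → Set V, (∀ a, #(E a) < #I) ∧ (⋃ a, E a) = Set.univ := by
  obtain ⟨e⟩ := (Cardinal.le_def V I).1 hV
  refine ⟨fun a => {v | e v = a}, fun a => ?_, ?_⟩
  · apply c1_finite hI
    apply Set.Subsingleton.finite
    intro x hx y hy
    exact e.injective (hx.trans hy.symm)
  · ext v
    simp

/-- The cardinality of a union of a chain of small sets. -/
theorem c3_mk_iUnion_le (hI : ℵ₀ < #I) {V : Type u} {W : I → Set V} (hW : IsChainC W) :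
    #(⋃ a, W a) ≤ #I := by
  refine (mk_iUnion_le _).trans ?_
  refine (mul_le_mul' le_rfl (ciSup_le' fun a => (hW.small a).le)).trans ?_
  rw [mul_eq_self hI.le]

/-- The injection `e` of section 8: every `d` of the union of the chain gets its own stage
`e d ∈ C` with `d ∈ W (e d)`. -/
theorem c3_owner (hI : ℵ₀ < #I) {V : Type u} {W : I → Set V} (hW : IsChainC W) {C : Set I}
    (hC : IsClub C) : ∃ e : V → I, (∀ d d', d ∈ ⋃ a, W a → d' ∈ ⋃ a, W a → e d = e d' → d = d') ∧
      ∀ d ∈ ⋃ a, W a, e d ∈ C ∧ d ∈ W (e d) := by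
  classical
  haveI := c1_nonempty hI
  obtain ⟨f, hf1, hf2⟩ := c3_choice hI (J := (⋃ a, W a : Set V)) (c3_mk_iUnion_le hI hW)
    (fun d => {b | b ∈ C ∧ d.1 ∈ W b}) (by
      rintro ⟨d, hd⟩ a
      obtain ⟨c, hc⟩ := mem_iUnion.1 hd
      obtain ⟨b, hb, hab⟩ := hC.isCofinal (max a c)
      exact ⟨b, ⟨hb, hW.mono ((le_max_right _ _).trans hab) hc⟩, (le_max_left _ _).trans hab⟩)
  refine ⟨fun d => if h : d ∈ ⋃ a, W a then f ⟨d, h⟩ else Classical.arbitrary I, ?_, ?_⟩
  · intro d d' hd hd' h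
    simp only [hd, hd', dif_pos] at h
    exact congrArg Subtype.val (hf1 h)
  · intro d hd
    simp only [hd, dif_pos]
    exact hf2 ⟨d, hd⟩

end H21C
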