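import Pool.Agent.Lib.H21C.C2

/-!
# H21C, C4: construction of a continuous coherent chain by transfinite recursion

`S` is a preorder of `states`, `U s` the set of vertices used by the state. Every state has a
small extension containing any given small set, and every nonempty chain of states has an upper
bound whose set is the union. Then there is a continuous chain of states indexed by `I`.
-/

set_option autoImplicit false
set_option linter.unusedSectionVars false
set_option linter.style.haveILetI false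
set_option linter.unusedVariables false

namespace H21C

open Cardinal Order Ordinal Set

universe u w

variable {I : Type u} [LinearOrder I] [WellFoundedLT I] [IsRegularCardinalOrder I]

theorem c4_chain (hI : ℵ₀ < #I) {V : Type u} {S : Type w} [Preorder S] (U : S → Set V)
    (hU : Monotone U) (s0 : S) (h0 : #(U s0) < #I)
    (E : I → S → Set V) (hE : ∀ a s, #(U s) < #I → #(E a s) < #I)
    (hsucc : ∀ (s : S) (Y : Set V), #(U s) < #I → #Y < #I →
      ∃ s', s ≤ s' ∧ Y ⊆ U s' ∧ #(U s') < #I)
    (hlim : ∀ c : Set S, c.Nonempty → IsChain (· ≤ ·) c →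
      ∃ s, (∀ t ∈ c, t ≤ s) ∧ U s = ⋃ t ∈ c, U t) :
    ∃ f : I → S, Monotone f ∧ (∀ a, (∀ b, ¬ b < a) → f a = s0) ∧ IsChainC (fun a => U (f a)) ∧
      ∀ a b, a < b → E a (f a) ⊆ U (f b) := by
  classical
  -- the successor step
  have hst : ∀ (a : I) (s : S), ∃ s', s ≤ s' ∧ (#(U s) < #I → E a s ⊆ U s' ∧ #(U s') < #I) := by
    intro a s
    by_cases h : #(U s) < #I
    · obtain ⟨s', h1, h2, h3⟩ := hsucc s (E a s) h (hE a s h)
      exact ⟨s', h1, fun _ => ⟨h2, h3⟩⟩
    · exact ⟨s, le_rfl, fun h' => absurd h' h⟩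
  choose st hst1 hst2 using hst
  -- the limit step
  let lim : Set S → S := fun c =>
    if h : c.Nonempty ∧ IsChain (· ≤ ·) c then (hlim c h.1 h.2).choose else s0
  have hlim1 : ∀ c : Set S, c.Nonempty → IsChain (· ≤ ·) c →
      (∀ t ∈ c, t ≤ lim c) ∧ U (lim c) = ⋃ t ∈ c, U t := by
    intro c h1 h2
    have h : c.Nonempty ∧ IsChain (· ≤ ·) c := ⟨h1, h2⟩
    simp only [lim, dif_pos h]
    exact (hlim c h.1 h.2).choose_spec
  let F : (a : I) → ((b : I) → b < a → S) → S := fun a g =>
    lim {s | ∃ (b : I) (hb : b < a), s = st b (g b hb)}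
  let f : I → S := WellFounded.fix wellFounded_lt F
  have hf : ∀ a, f a = lim {s | ∃ (b : I) (_ : b < a), s = st b (f b)} := fun a =>
    WellFounded.fix_eq _ _ _
  have hbot : ∀ a, (∀ b, ¬ b < a) → f a = s0 := by
    intro a ha
    rw [hf]
    have : ¬ ({s | ∃ (b : I) (_ : b < a), s = st b (f b)} : Set S).Nonempty := by
      rintro ⟨s, b, hb, -⟩
      exact ha b hb
    simp only [lim]
    rw [dif_neg]
    exact fun h => this h.1
  have main : ∀ a, #(U (f a)) < #I ∧ (∀ b < a, st b (f b) ≤ f a) ∧
      ((∃ b, b < a) → U (f a) = ⋃ b ∈ Iio a, U (st b (f b))) := by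
    intro a
    induction a using WellFoundedLT.induction with
    | ind a ih =>
      by_cases ha : ∃ b, b < a
      · obtain ⟨b0, hb0⟩ := ha
        set c : Set S := {s | ∃ (b : I) (_ : b < a), s = st b (f b)} with hc
        have hcn : c.Nonempty := ⟨st b0 (f b0), b0, hb0, rfl⟩
        have hcc : IsChain (· ≤ ·) c := by
          rintro _ ⟨b, hb, rfl⟩ _ ⟨b', hb', rfl⟩ hne
          rcases lt_trichotomy b b' with h | h | h
          · left
            exact ((ih b' hb').2.1 b h).trans (hst1 _ _)
          · exact absurd (by rw [h]) hne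
          · right
            exact ((ih b hb).2.1 b' h).trans (hst1 _ _)
        obtain ⟨h1, h2⟩ := hlim1 c hcn hcc
        rw [← hf a] at h1 h2
        have h3 : U (f a) = ⋃ b ∈ Iio a, U (st b (f b)) := by
          rw [h2]
          ext x
          simp only [mem_iUnion, exists_prop, mem_Iio, hc, mem_setOf_eq]
          constructor
          · rintro ⟨_, ⟨b, hb, rfl⟩, hx⟩
            exact ⟨b, hb, hx⟩
          · rintro ⟨b, hb, hx⟩
            exact ⟨_, ⟨b, hb, rfl⟩, hx⟩
        refine ⟨?_, fun b hb => h1 _ ⟨b, hb, rfl⟩, fun _ => h3⟩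
        rw [h3]
        exact c1_biUnion hI a _ fun b hb => (hst2 b (f b) (ih b hb).1).2
      · refine ⟨?_, fun b hb => absurd ⟨b, hb⟩ ha, fun h => absurd h ha⟩
        rw [hbot a (fun b hb => ha ⟨b, hb⟩)]
        exact h0
  have hmono : Monotone f := by
    intro b a hba
    rcases hba.lt_or_eq with h | h
    · exact (hst1 b (f b)).trans ((main a).2.1 b h)
    · rw [h]
  refine ⟨f, hmono, hbot, ⟨hU.comp hmono, fun a => (main a).1, ?_⟩, ?_⟩
  · intro a ha1 ha2 x hx
    rw [(main a).2.2 ha1] at hx
    simp only [mem_iUnion, mem_Iio, exists_prop] at hx ⊢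
    obtain ⟨b, hb, hx⟩ := hx
    obtain ⟨c, hbc, hca⟩ := ha2 b hb
    exact ⟨c, hca, hU ((main c).2.1 b hbc) hx⟩
  · intro a b hab
    exact ((hst2 a (f a) (main a).1).1).trans (hU ((main b).2.1 a hab))

end H21C
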