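import Pool.Agent.Lib.H21C.C1

/-!
# H21C, C5: the stage type of a regular cardinal, and the main induction on cardinals
-/

set_option autoImplicit false
set_option linter.unusedSectionVars false
set_option linter.style.haveILetI false
set_option linter.unusedVariables false

namespace H21C

open Cardinal Order Ordinal Set

universe u

/-- For a regular cardinal `κ`, `κ.ord.ToType` is a stage type. -/
theorem c5_inst {κ : Cardinal.{u}} (hκ : κ.IsRegular) : IsRegularCardinalOrder κ.ord.ToType := by
  constructor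
  rw [Ordinal.cof_toType, hκ.cof_ord]
  simp

theorem c5_mk (κ : Cardinal.{u}) : #(κ.ord.ToType) = κ := by simp

/-- The induction on cardinals. -/
theorem c5_induction (PM : Cardinal.{u} → Prop) (h0 : ∀ κ ≤ ℵ₀, PM κ)
    (hreg : ∀ κ : Cardinal.{u}, ℵ₀ < κ → κ.IsRegular → (∀ ν < κ, PM ν) → PM κ)
    (hsing : ∀ κ : Cardinal.{u}, ℵ₀ < κ → κ.ord.cof < κ → (∀ ν < κ, PM ν) → PM κ) :
    ∀ κ, PM κ := by
  intro κ
  induction κ using WellFoundedLT.induction with
  | ind κ ih =>
    rcases le_or_gt κ ℵ₀ with h | h
    · exact h0 κ h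
    · rcases lt_or_ge κ.ord.cof κ with h1 | h1
      · exact hsing κ h h1 ih
      · exact hreg κ h ⟨h.le, h1⟩ ih

end H21C
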