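import Mathlib

/-!
# H21C, N1: the singular case

`R` is a set of vertices of singular cardinality, `Q P f` says: `P ⊆ R` is `good` with the partial
involution `f` on `P`. If good sets can be enlarged without changing `f` (inside any infinite
cardinality below `#R`), then there is an involution `g` of `R` which at every point agrees with
the involution of some good set.

Proof. Choose `M`, `#M < #R`, and `W_i` (`i ∈ M`) with union `R`, `#W_i < #R`. Build
`P_i^n` with `#P_i^n ≤ ν_i`, `P_i^(n+1) ⊇ f_j^n '' (P_i^n ∩ P_j^n)` for all `j`. Then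
`P_i = ⋃ n, P_i^n` is closed under `f_j` (at the points of `P_j`), for all `j`. Let `i x` be the
least `i` with `x ∈ P_i` and `g x = f_(i x) x`; `i (g x) = i x` by the closure property.
No continuity of the cardinals is needed.
-/

set_option autoImplicit false
set_option linter.unusedSectionVars false
set_option linter.style.haveILetI false
set_option linter.unusedVariables false

namespace H21C

open Cardinal Order Ordinal Set

universe u

/-- A set of singular cardinality is a small union of small sets. -/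
theorem n1_cover {V : Type u} (R : Set V) (hR : ℵ₀ ≤ #R) (hs : (#R).ord.cof < #R) :
    ∃ (M : Type u) (W : M → Set V), #M < #R ∧ (∀ i, #(W i) < #R) ∧ R ⊆ ⋃ i, W i := by
  let K := (#R).ord.ToType
  have hK : #K = #R := by simp [K]
  obtain ⟨e⟩ := Cardinal.eq.1 hK
  obtain ⟨S, hS1, hS2⟩ := Order.exists_cof_eq K
  have hKs : ∀ k : K, #(Iic k) < #R := fun k => by
    have h1 := mk_Iio_lt k (by simp [K])
    rw [hK] at h1
    have h2 : (Iic k : Set K) = insert k (Iio k) := by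
      ext x
      simp [le_iff_eq_or_lt]
    rw [h2]
    exact (mk_insert_le).trans_lt (add_lt_of_lt hR h1 (one_lt_aleph0.trans_le hR))
  refine ⟨S, fun s => {v | ∃ h : v ∈ R, e.symm ⟨v, h⟩ ≤ s.1}, ?_, ?_, ?_⟩
  · rw [hS2, Ordinal.cof_toType]
    exact hs
  · intro s
    refine lt_of_le_of_lt ?_ (hKs s.1)
    refine mk_le_of_injective (f := fun v => ⟨e.symm ⟨v.1, v.2.choose⟩, v.2.choose_spec⟩) ?_
    intro v w h
    have h1 := congrArg Subtype.val h
    simp only [EmbeddingLike.apply_eq_iff_eq, Subtype.mk.injEq] at h1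
    exact Subtype.ext h1
  · intro v hv
    obtain ⟨s, hs1, hs2⟩ := hS1 (e.symm ⟨v, hv⟩)
    exact mem_iUnion.2 ⟨⟨s, hs1⟩, hv, hs2⟩

theorem n1_singular {V : Type u} (R : Set V) (hR : ℵ₀ ≤ #R) (hs : (#R).ord.cof < #R)
    (Q : Set V → (V → V) → Prop) (hPR : ∀ P f, Q P f → P ⊆ R)
    (hQ : ∀ P f, Q P f → ∀ x ∈ P, f x ∈ P ∧ f (f x) = x)
    (f0 : V → V) (hQ0 : Q ∅ f0)
    (hstep : ∀ ν : Cardinal.{u}, ℵ₀ ≤ ν → ν < #R → ∀ P f, Q P f → #P ≤ ν → ∀ Y ⊆ R, #Y ≤ ν →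
      ∃ P' f', Q P' f' ∧ P ⊆ P' ∧ Y ⊆ P' ∧ #P' ≤ ν ∧ ∀ x ∈ P, f' x = f x) :
    ∃ g : V → V, ∀ x ∈ R, g (g x) = x ∧ ∃ P f, Q P f ∧ x ∈ P ∧ g x = f x := by
  classical
  obtain ⟨M, W, hM, hW, hRW⟩ := n1_cover R hR hs
  letI : LinearOrder M := linearOrderOfSTO WellOrderingRel
  haveI hwf : WellFoundedLT M := ⟨WellOrderingRel.isWellOrder.wf⟩
  -- the bounds
  let ν : M → Cardinal.{u} := fun i => max (max #(W i) #M) ℵ₀
  have hν0 : ∀ i, ℵ₀ ≤ ν i := fun i => le_max_right _ _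
  have hνM : ∀ i, #M ≤ ν i := fun i => (le_max_right _ _).trans (le_max_left _ _)
  have hνW : ∀ i, #(W i) ≤ ν i := fun i => (le_max_left _ _).trans (le_max_left _ _)
  -- `#R > ℵ₀`
  have hRu : ℵ₀ < #R := by
    refine lt_of_le_of_ne hR fun h => ?_
    rw [← h] at hs
    have : (ℵ₀ : Cardinal.{u}).ord.cof = ℵ₀ := isRegular_aleph0.cof_ord
    rw [this] at hs
    exact lt_irrefl _ hs
  have hνR : ∀ i, ν i < #R := fun i => max_lt (max_lt (hW i) hM) hRu
  -- families of good sets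
  let F := {p : M → Set V × (V → V) // ∀ i, Q (p i).1 (p i).2 ∧ #(p i).1 ≤ ν i}
  let Y : F → M → Set V := fun p i =>
    (W i ∩ R) ∪ ⋃ j, (p.1 j).2 '' ((p.1 i).1 ∩ (p.1 j).1)
  have hYR : ∀ p i, Y p i ⊆ R := by
    rintro p i x (hx | hx)
    · exact hx.2
    · obtain ⟨j, y, hy, rfl⟩ := mem_iUnion.1 hx
      exact hPR _ _ (p.2 j).1 (hQ _ _ (p.2 j).1 y hy.2).1
  have hYc : ∀ p i, #(Y p i) ≤ ν i := by
    intro p i
    refine (mk_union_le _ _).trans (add_le_of_le (hν0 i) ?_ ?_)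
    · exact (mk_le_mk_of_subset inter_subset_left).trans (hνW i)
    · refine (mk_iUnion_le _).trans ?_
      refine (mul_le_mul' (hνM i) (ciSup_le' fun j => ?_)).trans (mul_eq_self (hν0 i)).le
      exact mk_image_le.trans ((mk_le_mk_of_subset inter_subset_left).trans (p.2 i).2)
  have hnext : ∀ p : F, ∃ p' : F, ∀ i, (p.1 i).1 ⊆ (p'.1 i).1 ∧ Y p i ⊆ (p'.1 i).1 ∧
      ∀ x ∈ (p.1 i).1, (p'.1 i).2 x = (p.1 i).2 x := by
    intro p
    choose P' f' h1 h2 h3 h4 h5 using fun i =>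
      hstep (ν i) (hν0 i) (hνR i) (p.1 i).1 (p.1 i).2 (p.2 i).1 (p.2 i).2 (Y p i) (hYR p i)
        (hYc p i)
    exact ⟨⟨fun i => (P' i, f' i), fun i => ⟨h1 i, h4 i⟩⟩, fun i => ⟨h2 i, h3 i, h5 i⟩⟩
  choose nx hnx using hnext
  let p0 : F := ⟨fun _ => (∅, f0), fun i => ⟨hQ0, by simp⟩⟩
  let a : ℕ → F := fun n => Nat.rec p0 (fun _ p => nx p) n
  have has : ∀ n, a (n + 1) = nx (a n) := fun n => rfl
  have hmono : ∀ i m n, m ≤ n → ((a m).1 i).1 ⊆ ((a n).1 i).1 ∧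
      ∀ x ∈ ((a m).1 i).1, ((a n).1 i).2 x = ((a m).1 i).2 x := by
    intro i m n hmn
    induction n, hmn using Nat.le_induction with
    | base => exact ⟨Subset.rfl, fun _ _ => rfl⟩
    | succ n _ ih =>
      rw [has]
      exact ⟨ih.1.trans (hnx (a n) i).1, fun x hx =>
        ((hnx (a n) i).2.2 x (ih.1 hx)).trans (ih.2 x hx)⟩
  let P : M → Set V := fun i => ⋃ n, ((a n).1 i).1
  let f : M → V → V := fun i x =>
    if h : ∃ n, x ∈ ((a n).1 i).1 then ((a h.choose).1 i).2 x else x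
  have hf : ∀ i n x, x ∈ ((a n).1 i).1 → f i x = ((a n).1 i).2 x := by
    intro i n x hx
    have h : ∃ n, x ∈ ((a n).1 i).1 := ⟨n, hx⟩
    simp only [f, dif_pos h]
    rcases le_total h.choose n with h1 | h1
    · exact ((hmono i _ _ h1).2 x h.choose_spec).symm
    · exact (hmono i _ _ h1).2 x hx
  have hfP : ∀ i x, x ∈ P i → f i x ∈ P i ∧ f i (f i x) = x := by
    intro i x hx
    obtain ⟨n, hn⟩ := mem_iUnion.1 hx
    have h1 := hQ _ _ ((a n).2 i).1 x hn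
    rw [hf i n x hn]
    exact ⟨mem_iUnion.2 ⟨n, h1.1⟩, by rw [hf i n _ h1.1]; exact h1.2⟩
  have hcl : ∀ i j x, x ∈ P i → x ∈ P j → f j x ∈ P i := by
    intro i j x hx hx'
    obtain ⟨m, hm⟩ := mem_iUnion.1 hx
    obtain ⟨n, hn⟩ := mem_iUnion.1 hx'
    have h1 : x ∈ ((a (max m n)).1 i).1 := (hmono i _ _ (le_max_left _ _)).1 hm
    have h2 : x ∈ ((a (max m n)).1 j).1 := (hmono j _ _ (le_max_right _ _)).1 hn
    rw [hf j _ x h2]
    refine mem_iUnion.2 ⟨max m n + 1, ?_⟩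
    rw [has]
    exact (hnx (a (max m n)) i).2.1 (Or.inr (mem_iUnion.2 ⟨j, mem_image_of_mem _ ⟨h1, h2⟩⟩))
  have hRP : ∀ x ∈ R, ∃ i, x ∈ P i := by
    intro x hx
    obtain ⟨i, hi⟩ := mem_iUnion.1 (hRW hx)
    refine ⟨i, mem_iUnion.2 ⟨1, ?_⟩⟩
    have : a 1 = nx (a 0) := has 0
    rw [this]
    exact (hnx (a 0) i).2.1 (Or.inl ⟨hi, hx⟩)
  let ix : ∀ x, (∃ i, x ∈ P i) → M := fun x h => WellFounded.min hwf.wf {i | x ∈ P i} h
  have hix : ∀ x h, x ∈ P (ix x h) := fun x h => WellFounded.min_mem hwf.wf {i | x ∈ P i} h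
  have hix' : ∀ x h j, x ∈ P j → ix x h ≤ j := fun x h j hj =>
    not_lt.1 (WellFounded.not_lt_min hwf.wf {i | x ∈ P i} hj)
  refine ⟨fun x => if h : ∃ i, x ∈ P i then f (ix x h) x else x, ?_⟩
  intro x hx
  have h : ∃ i, x ∈ P i := hRP x hx
  have h1 := hix x h
  have h2 : f (ix x h) x ∈ P (ix x h) := (hfP _ _ h1).1
  have h3 : ∃ i, f (ix x h) x ∈ P i := ⟨_, h2⟩
  have h4 : ix (f (ix x h) x) h3 = ix x h := by
    apply le_antisymm (hix' _ h3 _ h2)
    have h5 := hix (f (ix x h) x) h3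
    have h6 := hcl _ (ix x h) _ h5 h2
    rw [(hfP _ _ h1).2] at h6
    exact hix' x h _ h6
  constructor
  · simp only [dif_pos h, dif_pos h3, h4]
    exact (hfP _ _ h1).2
  · obtain ⟨n, hn⟩ := mem_iUnion.1 h1
    refine ⟨((a n).1 (ix x h)).1, ((a n).1 (ix x h)).2, ((a n).2 _).1, hn, ?_⟩
    simp only [dif_pos h]
    exact hf _ n x hn

end H21C
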