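import Pool.Agent.Lib.H30K.P14
import Pool.Agent.Lib.H30K.P15
import Pool.Agent.Lib.H30K.P11A
import Pool.Agent.Lib.H87.HopfKC.Even
import Pool.Agent.Lib.H91.Mat3

/-!
# T33: two classes of three indices

`Ty s R`: the components of the curvature tensor `R` vanish unless the classes (given by `s`) of the pairs of indices
agree. For two classes of three indices `gb R = 384 (∑ bA i k * bT i j k l * bC j l + QP bT)` (`HopfKC.gb_blocks`).
`T = - bT` is symmetric in the first and third index and in the second and fourth index, and the real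
biquadratic form `∑ T i k j l x i y k x j y l` is nonnegative if `K ≤ 0`; so `T` is Griffiths
nonnegative over the complex numbers and `QP T ≥ 0` (`H91.Mat3.QP_nonneg`), `QP bT = - QP T ≤ 0`.
`- bA`, `- bC` are positive semidefinite (every vector of `ℝ³` is a vector product).
-/

set_option autoImplicit false

open scoped ContDiff Topology Manifold
open Set

namespace H21C

open H31R H79G H60E H30K
open Pool.Agent.H69Hopf (Arr IsAlgCurv ev area2)
open HopfKC (lo hi bT bA bC bG bL bM bX bE3 nx pv)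

/-- the types condition for the classes given by `s` -/
def Ty (s : Fin 6 → Bool) (R : Arr 6) : Prop :=
  ∀ i j k l, R i j k l ≠ 0 → (s i = s k ∧ s j = s l) ∨ (s i = s l ∧ s j = s k)

theorem t33_zG {R : Arr 6} (hs : Ty (fun i => decide (i.1 < 3)) R) (i l : Fin 3) : bG R i l = 0 := by
  have hlo : ∀ i : Fin 3, decide ((lo i).1 < 3) = true := by decide
  have hhi : ∀ i : Fin 3, decide ((hi i).1 < 3) = false := by decide
  by_contra h0
  rcases hs _ _ _ _ h0 with h | h
  · have h1 : decide ((lo (nx i)).1 < 3) = decide ((hi (nx l)).1 < 3) := h.1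
    rw [hlo, hhi] at h1
    exact absurd h1 (by decide)
  · have h1 : decide ((lo (nx i)).1 < 3) = decide ((hi (pv l)).1 < 3) := h.1
    rw [hlo, hhi] at h1
    exact absurd h1 (by decide)

theorem t33_zL {R : Arr 6} (hs : Ty (fun i => decide (i.1 < 3)) R) (i k l : Fin 3) : bL R i k l = 0 := by
  have hlo : ∀ i : Fin 3, decide ((lo i).1 < 3) = true := by decide
  have hhi : ∀ i : Fin 3, decide ((hi i).1 < 3) = false := by decide
  by_contra h0
  rcases hs _ _ _ _ h0 with h | h
  · have h1 : decide ((lo (pv i)).1 < 3) = decide ((hi l).1 < 3) := h.2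
    rw [hlo, hhi] at h1
    exact absurd h1 (by decide)
  · have h1 : decide ((lo (nx i)).1 < 3) = decide ((hi l).1 < 3) := h.1
    rw [hlo, hhi] at h1
    exact absurd h1 (by decide)

theorem t33_zM {R : Arr 6} (hs : Ty (fun i => decide (i.1 < 3)) R) (i k l : Fin 3) : bM R i k l = 0 := by
  have hlo : ∀ i : Fin 3, decide ((lo i).1 < 3) = true := by decide
  have hhi : ∀ i : Fin 3, decide ((hi i).1 < 3) = false := by decide
  by_contra h0
  rcases hs _ _ _ _ h0 with h | h
  · have h1 : decide ((hi (nx i)).1 < 3) = decide ((lo k).1 < 3) := h.1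
    rw [hlo, hhi] at h1
    exact absurd h1 (by decide)
  · have h1 : decide ((hi (pv i)).1 < 3) = decide ((lo k).1 < 3) := h.2
    rw [hlo, hhi] at h1
    exact absurd h1 (by decide)

/-- the mixed part, with the sign which makes it nonnegative; positions 1 and 3 are in the first class -/
def tM (R : Arr 6) : H91.Mat3.T4 := fun i k j l => -bT R i k j l

theorem t33_gb {R : Arr 6} (hR : IsAlgCurv R) (hs : Ty (fun i => decide (i.1 < 3)) R) :
    gb R = -(384 * (H91.Mat3.QP (tM R) + ∑ i, ∑ j, ∑ k, ∑ l, (-bA R i k) * tM R i j k l * (-bC R j l))) := by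
  have hR' : HopfSix.IsAlgCurv R := ⟨hR.skew, hR.pair, hR.bianchi⟩
  have h1 : H91.Mat3.QP (tM R) = -H91.Mat3.QP (fun i k j l => bT R i k j l) := by
    unfold H91.Mat3.QP tM
    rw [← Finset.sum_neg_distrib]
    refine Finset.sum_congr rfl fun ρ _ => ?_
    rw [← Finset.sum_neg_distrib]
    refine Finset.sum_congr rfl fun π _ => ?_
    rw [← Finset.sum_neg_distrib]
    refine Finset.sum_congr rfl fun τ _ => ?_
    rw [Fin.prod_univ_three, Fin.prod_univ_three]
    ring
  have h2 : bX R = 0 := by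
    unfold bX
    refine Finset.sum_eq_zero fun ρ _ => Finset.sum_eq_zero fun π _ => Finset.sum_eq_zero fun i _ =>
      Finset.sum_eq_zero fun j _ => ?_
    rw [t33_zL hs]
    ring
  have h3 : bE3 R = -∑ i, ∑ j, ∑ k, ∑ l, (-bA R i k) * tM R i j k l * (-bC R j l) := by
    unfold bE3 tM
    rw [← Finset.sum_neg_distrib]
    refine Finset.sum_congr rfl fun i _ => ?_
    rw [← Finset.sum_neg_distrib]
    refine Finset.sum_congr rfl fun j _ => ?_
    rw [← Finset.sum_neg_distrib]
    refine Finset.sum_congr rfl fun k _ => ?_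
    rw [← Finset.sum_neg_distrib]
    refine Finset.sum_congr rfl fun l _ => ?_
    simp only [t33_zG hs, t33_zL hs, t33_zM hs]
    ring
  rw [gb, HopfKC.gb_blocks hR', h2, h3, h1]
  ring

theorem t33_symm {R : Arr 6} (hR : IsAlgCurv R) (hs : Ty (fun i => decide (i.1 < 3)) R) (i k j l : Fin 3) :
    tM R i k j l = tM R j k i l := by
  have hlo : ∀ i : Fin 3, decide ((lo i).1 < 3) = true := by decide
  have hhi : ∀ i : Fin 3, decide ((hi i).1 < 3) = false := by decide
  have h1 := hR.bianchi (lo i) (hi k) (lo j) (hi l)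
  have h2 : R (lo j) (lo i) (hi k) (hi l) = 0 := by
    by_contra h0
    rcases hs _ _ _ _ h0 with h | h
    · have h3 : decide ((lo j).1 < 3) = decide ((hi k).1 < 3) := h.1
      rw [hlo, hhi] at h3
      exact absurd h3 (by decide)
    · have h3 : decide ((lo j).1 < 3) = decide ((hi l).1 < 3) := h.1
      rw [hlo, hhi] at h3
      exact absurd h3 (by decide)
  have h3 := hR.skew (hi k) (lo j) (lo i) (hi l)
  show -R (lo i) (hi k) (lo j) (hi l) = -R (lo j) (hi k) (lo i) (hi l)
  linarith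

theorem t33_symm2 {R : Arr 6} (hR : IsAlgCurv R) (hs : Ty (fun i => decide (i.1 < 3)) R) (i k j l : Fin 3) :
    tM R i k j l = tM R i l j k := by
  have h1 : tM R j l i k = tM R i k j l := by
    show -R (lo j) (hi l) (lo i) (hi k) = -R (lo i) (hi k) (lo j) (hi l)
    rw [hR.pair]
  rw [← h1, t33_symm hR hs]

/-- extension of a vector on the first block -/
def xl (x : Fin 3 → ℝ) : Fin 6 → ℝ := ![x 0, x 1, x 2, 0, 0, 0]
/-- extension of a vector on the second block -/
def xh (x : Fin 3 → ℝ) : Fin 6 → ℝ := ![0, 0, 0, x 0, x 1, x 2]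

theorem xl_lo (x : Fin 3 → ℝ) (i : Fin 3) : xl x (lo i) = x i := by fin_cases i <;> rfl
theorem xl_hi (x : Fin 3 → ℝ) (i : Fin 3) : xl x (hi i) = 0 := by fin_cases i <;> rfl
theorem xh_lo (x : Fin 3 → ℝ) (i : Fin 3) : xh x (lo i) = 0 := by fin_cases i <;> rfl
theorem xh_hi (x : Fin 3 → ℝ) (i : Fin 3) : xh x (hi i) = x i := by fin_cases i <;> rfl

/-- the biquadratic form of the mixed part -/
theorem t33_val {R : Arr 6} {h : ℝ} (hK : KB h R) (x y : Fin 3 → ℝ) :
    h * ((∑ i, x i ^ 2) * ∑ i, y i ^ 2) ≤ ∑ i, ∑ j, ∑ k, ∑ l, tM R i j k l * (x i * y j * x k * y l) := by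
  have h1 := hK (xl x) (xh y)
  unfold ev area2 at h1
  simp only [HopfKC.sum6, xl_lo, xl_hi, xh_lo, xh_hi, mul_zero, zero_mul, Finset.sum_const_zero, add_zero, zero_add,
    ne_eq, OfNat.ofNat_ne_zero, not_false_eq_true, zero_pow, sub_zero] at h1
  have h2 : ∑ i, ∑ j, ∑ k, ∑ l, tM R i j k l * (x i * y j * x k * y l) =
      -∑ i, ∑ j, ∑ k, ∑ l, R (lo i) (hi j) (lo k) (hi l) * x i * y j * x k * y l := by
    rw [← Finset.sum_neg_distrib]
    refine Finset.sum_congr rfl fun i _ => ?_
    rw [← Finset.sum_neg_distrib]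
    refine Finset.sum_congr rfl fun j _ => ?_
    rw [← Finset.sum_neg_distrib]
    refine Finset.sum_congr rfl fun k _ => ?_
    rw [← Finset.sum_neg_distrib]
    refine Finset.sum_congr rfl fun l _ => ?_
    show -R (lo i) (hi j) (lo k) (hi l) * (x i * y j * x k * y l) = _
    ring
  rw [h2]
  linarith

/-- an alternating form is a function of the vector product -/
theorem t33_alt (a : Fin 3 → Fin 3 → ℝ) (ha : ∀ i j, a i j = -a j i) (x y : Fin 3 → ℝ) :
    ∑ i, ∑ j, a i j * (x i * y j) = ∑ m, a (nx m) (pv m) * (x (nx m) * y (pv m) - x (pv m) * y (nx m)) := by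
  have h00 := ha 0 0
  have h11 := ha 1 1
  have h22 := ha 2 2
  have h10 := ha 1 0
  have h20 := ha 2 0
  have h21 := ha 2 1
  simp only [Fin.sum_univ_three]
  show _ = a 1 2 * (x 1 * y 2 - x 2 * y 1) + a 2 0 * (x 2 * y 0 - x 0 * y 2) + a 0 1 * (x 0 * y 1 - x 1 * y 0)
  have e0 : a 0 0 = 0 := by linarith
  have e1 : a 1 1 = 0 := by linarith
  have e2 : a 2 2 = 0 := by linarith
  rw [e0, e1, e2, h10, h20, h21]
  ring

/-- a curvature tensor in dimension three with nonpositive sectional curvatures is nonpositive -/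
theorem t33_cross (r : Fin 3 → Fin 3 → Fin 3 → Fin 3 → ℝ) (h1 : ∀ i j k l, r i j k l = -r j i k l)
    (h2 : ∀ i j k l, r i j k l = -r i j l k)
    (hn : ∀ x y : Fin 3 → ℝ, ∑ i, ∑ j, ∑ k, ∑ l, r i j k l * (x i * y j * x k * y l) ≤ 0) (p : Fin 3 → ℝ) :
    ∑ m, ∑ n, r (nx m) (pv m) (nx n) (pv n) * (p m * p n) ≤ 0 := by
  have key : ∀ x y : Fin 3 → ℝ, ∑ m, ∑ n, r (nx m) (pv m) (nx n) (pv n) *
      ((x (nx m) * y (pv m) - x (pv m) * y (nx m)) * (x (nx n) * y (pv n) - x (pv n) * y (nx n))) ≤ 0 := by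
    intro x y
    have e1 : ∀ i j, ∑ k, ∑ l, r i j k l * (x i * y j * x k * y l) =
        (∑ n, r i j (nx n) (pv n) * (x (nx n) * y (pv n) - x (pv n) * y (nx n))) * (x i * y j) := by
      intro i j
      rw [← t33_alt (fun k l => r i j k l) (fun k l => h2 i j k l) x y, Finset.sum_mul]
      refine Finset.sum_congr rfl fun k _ => ?_
      rw [Finset.sum_mul]
      refine Finset.sum_congr rfl fun l _ => ?_
      ring
    have e2 := hn x y
    simp only [e1] at e2
    rw [t33_alt (fun i j => ∑ n, r i j (nx n) (pv n) * (x (nx n) * y (pv n) - x (pv n) * y (nx n))) (fun i j => by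
      rw [← Finset.sum_neg_distrib]
      refine Finset.sum_congr rfl fun n _ => ?_
      rw [h1 i j]
      ring) x y] at e2
    refine le_trans (le_of_eq ?_) e2
    refine Finset.sum_congr rfl fun m _ => ?_
    rw [Finset.sum_mul]
    refine Finset.sum_congr rfl fun n _ => ?_
    ring
  have fin : ∀ (c : ℝ) (x y : Fin 3 → ℝ), c ≠ 0 → x 1 * y 2 - x 2 * y 1 = c * p 0 → x 2 * y 0 - x 0 * y 2 = c * p 1 →
      x 0 * y 1 - x 1 * y 0 = c * p 2 → ∑ m, ∑ n, r (nx m) (pv m) (nx n) (pv n) * (p m * p n) ≤ 0 := by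
    intro c x y hc g0 g1 g2
    have g : ∀ m, x (nx m) * y (pv m) - x (pv m) * y (nx m) = c * p m := by
      intro m
      fin_cases m
      · exact g0
      · exact g1
      · exact g2
    have e1 := key x y
    simp only [g] at e1
    have e2 : ∑ m, ∑ n, r (nx m) (pv m) (nx n) (pv n) * (c * p m * (c * p n)) =
        c ^ 2 * ∑ m, ∑ n, r (nx m) (pv m) (nx n) (pv n) * (p m * p n) := by
      rw [Finset.mul_sum]
      refine Finset.sum_congr rfl fun m _ => ?_
      rw [Finset.mul_sum]
      refine Finset.sum_congr rfl fun n _ => ?_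
      ring
    rw [e2] at e1
    have hc2 : 0 < c ^ 2 := by positivity
    nlinarith
  by_cases p0 : p 0 = 0
  · by_cases p1 : p 1 = 0
    · by_cases p2 : p 2 = 0
      · have hp : ∀ m, p m = 0 := by
          intro m
          fin_cases m
          · exact p0
          · exact p1
          · exact p2
        refine le_of_eq (Finset.sum_eq_zero fun m _ => Finset.sum_eq_zero fun n _ => ?_)
        rw [hp m]
        ring
      · refine fin (p 2) ![p 2, 0, -p 0] ![0, p 2, -p 1] p2 ?_ ?_ ?_ <;> simp <;> ring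
    · refine fin (p 1) ![0, -p 2, p 1] ![p 1, -p 0, 0] p1 ?_ ?_ ?_ <;> simp <;> ring
  · refine fin (p 0) ![-p 1, p 0, 0] ![-p 2, 0, p 0] p0 ?_ ?_ ?_ <;> simp <;> ring

theorem t33_area (x y : Fin 6 → ℝ) : 0 ≤ area2 x y := by
  unfold area2
  have h := Finset.sum_mul_sq_le_sq_mul_sq Finset.univ x y
  linarith

theorem t33_A {R : Arr 6} (hR : IsAlgCurv R) {h : ℝ} (hh : 0 ≤ h) (hK : KB h R) (p : Fin 3 → ℝ) :
    0 ≤ ∑ i, ∑ k, (-bA R i k) * (p i * p k) := by
  have h1 := t33_cross (fun i j k l => R (lo i) (lo j) (lo k) (lo l)) (fun i j k l => by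
    have := hR.skew (lo i) (lo j) (lo k) (lo l)
    linarith) (fun i j k l => by
    have h1 := hR.skew (lo k) (lo l) (lo i) (lo j)
    have h2 := hR.pair (lo i) (lo j) (lo k) (lo l)
    have h3 := hR.pair (lo i) (lo j) (lo l) (lo k)
    linarith) (fun x y => by
    have h1 := hK (xl x) (xl y)
    have h2 := mul_nonneg hh (t33_area (xl x) (xl y))
    unfold ev at h1
    simp only [HopfKC.sum6, xl_lo, xl_hi, mul_zero, zero_mul, Finset.sum_const_zero, add_zero] at h1
    have h3 : ∑ i, ∑ j, ∑ k, ∑ l, R (lo i) (lo j) (lo k) (lo l) * (x i * y j * x k * y l) =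
        ∑ i, ∑ j, ∑ k, ∑ l, R (lo i) (lo j) (lo k) (lo l) * x i * y j * x k * y l := by
      refine Finset.sum_congr rfl fun i _ => Finset.sum_congr rfl fun j _ => Finset.sum_congr rfl fun k _ =>
        Finset.sum_congr rfl fun l _ => ?_
      ring
    rw [h3]
    linarith) p
  have h2 : ∑ i, ∑ k, (-bA R i k) * (p i * p k) =
      -∑ i, ∑ k, R (lo (nx i)) (lo (pv i)) (lo (nx k)) (lo (pv k)) * (p i * p k) := by
    rw [← Finset.sum_neg_distrib]
    refine Finset.sum_congr rfl fun i _ => ?_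
    rw [← Finset.sum_neg_distrib]
    refine Finset.sum_congr rfl fun k _ => ?_
    show -R (lo (nx i)) (lo (pv i)) (lo (nx k)) (lo (pv k)) * (p i * p k) = _
    ring
  rw [h2]
  linarith

theorem t33_C {R : Arr 6} (hR : IsAlgCurv R) {h : ℝ} (hh : 0 ≤ h) (hK : KB h R) (p : Fin 3 → ℝ) :
    0 ≤ ∑ i, ∑ k, (-bC R i k) * (p i * p k) := by
  have h1 := t33_cross (fun i j k l => R (hi i) (hi j) (hi k) (hi l)) (fun i j k l => by
    have := hR.skew (hi i) (hi j) (hi k) (hi l)
    linarith) (fun i j k l => by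
    have h1 := hR.skew (hi k) (hi l) (hi i) (hi j)
    have h2 := hR.pair (hi i) (hi j) (hi k) (hi l)
    have h3 := hR.pair (hi i) (hi j) (hi l) (hi k)
    linarith) (fun x y => by
    have h1 := hK (xh x) (xh y)
    have h2 := mul_nonneg hh (t33_area (xh x) (xh y))
    unfold ev at h1
    simp only [HopfKC.sum6, xh_lo, xh_hi, mul_zero, zero_mul, Finset.sum_const_zero, zero_add] at h1
    have h3 : ∑ i, ∑ j, ∑ k, ∑ l, R (hi i) (hi j) (hi k) (hi l) * (x i * y j * x k * y l) =
        ∑ i, ∑ j, ∑ k, ∑ l, R (hi i) (hi j) (hi k) (hi l) * x i * y j * x k * y l := by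
      refine Finset.sum_congr rfl fun i _ => Finset.sum_congr rfl fun j _ => Finset.sum_congr rfl fun k _ =>
        Finset.sum_congr rfl fun l _ => ?_
      ring
    rw [h3]
    linarith) p
  have h2 : ∑ i, ∑ k, (-bC R i k) * (p i * p k) =
      -∑ i, ∑ k, R (hi (nx i)) (hi (pv i)) (hi (nx k)) (hi (pv k)) * (p i * p k) := by
    rw [← Finset.sum_neg_distrib]
    refine Finset.sum_congr rfl fun i _ => ?_
    rw [← Finset.sum_neg_distrib]
    refine Finset.sum_congr rfl fun k _ => ?_
    show -R (hi (nx i)) (hi (pv i)) (hi (nx k)) (hi (pv k)) * (p i * p k) = _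
    ring
  rw [h2]
  linarith

/-- a positive semidefinite symmetric array is a sum of squares -/
theorem t33_fac (A : Fin 3 → Fin 3 → ℝ) (hA : ∀ i k, A i k = A k i) (hp : ∀ p : Fin 3 → ℝ, 0 ≤ ∑ i, ∑ k, A i k * (p i * p k)) :
    ∃ b : Fin 3 → Fin 3 → ℝ, ∀ i k, A i k = ∑ r, b r i * b r k := by
  have h1 : (Matrix.of A).PosSemidef := by
    refine Matrix.PosSemidef.of_dotProduct_mulVec_nonneg ?_ ?_
    · ext i k
      rw [Matrix.conjTranspose_apply, star_trivial]
      exact hA k i
    · intro x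
      have h2 : star x ⬝ᵥ ((Matrix.of A).mulVec x) = ∑ i, ∑ k, A i k * (x i * x k) := by
        unfold dotProduct Matrix.mulVec dotProduct
        refine Finset.sum_congr rfl fun i _ => ?_
        rw [Finset.mul_sum]
        refine Finset.sum_congr rfl fun k _ => ?_
        show x i * (A i k * x k) = A i k * (x i * x k)
        ring
      rw [h2]
      exact hp x
  obtain ⟨B, hB⟩ := H30K.p11a_fac h1
  exact ⟨fun r i => B r i, fun i k => hB i k⟩

/-- the separable part -/
theorem t33_sep {R : Arr 6} (hR : IsAlgCurv R) {h : ℝ} (hh : 0 ≤ h) (hK : KB h R) :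
    h ^ 3 ≤ ∑ i, ∑ j, ∑ k, ∑ l, (-bA R i k) * tM R i j k l * (-bC R j l) := by
  have hR' : HopfSix.IsAlgCurv R := ⟨hR.skew, hR.pair, hR.bianchi⟩
  obtain ⟨b, hb⟩ := t33_fac (fun i k => -bA R i k) (fun i k => by rw [HopfKC.bA_symm hR']) (t33_A hR hh hK)
  obtain ⟨c, hc⟩ := t33_fac (fun i k => -bC R i k) (fun i k => by rw [HopfKC.bC_symm hR']) (t33_C hR hh hK)
  have e1 : ∑ i, ∑ j, ∑ k, ∑ l, (-bA R i k) * tM R i j k l * (-bC R j l) =
      ∑ r, ∑ s, ∑ i, ∑ j, ∑ k, ∑ l, tM R i j k l * (b r i * c s j * b r k * c s l) := by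
    have h1 : ∀ i j k l, (-bA R i k) * tM R i j k l * (-bC R j l) =
        ∑ r, ∑ s, tM R i j k l * (b r i * c s j * b r k * c s l) := by
      intro i j k l
      have hb' : -bA R i k = ∑ r, b r i * b r k := hb i k
      have hc' : -bC R j l = ∑ r, c r j * c r l := hc j l
      rw [hb', hc', Finset.sum_mul, Finset.sum_mul]
      refine Finset.sum_congr rfl fun r _ => ?_
      rw [Finset.mul_sum]
      refine Finset.sum_congr rfl fun s _ => ?_
      ring
    calc ∑ i, ∑ j, ∑ k, ∑ l, (-bA R i k) * tM R i j k l * (-bC R j l)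
        = ∑ i, ∑ j, ∑ k, ∑ l, ∑ r, ∑ s, tM R i j k l * (b r i * c s j * b r k * c s l) :=
          Finset.sum_congr rfl fun i _ => Finset.sum_congr rfl fun j _ => Finset.sum_congr rfl fun k _ =>
            Finset.sum_congr rfl fun l _ => h1 i j k l
      _ = ∑ r, ∑ i, ∑ j, ∑ k, ∑ l, ∑ s, tM R i j k l * (b r i * c s j * b r k * c s l) :=
          (H91.Mat3.move_in fun r i j k l => ∑ s, tM R i j k l * (b r i * c s j * b r k * c s l)).symm
      _ = _ := Finset.sum_congr rfl fun r _ =>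
          (H91.Mat3.move_in fun s i j k l => tM R i j k l * (b r i * c s j * b r k * c s l)).symm
  have e2 : ∀ r s, h * ((∑ i, b r i ^ 2) * ∑ i, c s i ^ 2) ≤
      ∑ i, ∑ j, ∑ k, ∑ l, tM R i j k l * (b r i * c s j * b r k * c s l) := fun r s => t33_val hK (b r) (c s)
  have e3 : h * ((∑ r, ∑ i, b r i ^ 2) * ∑ s, ∑ i, c s i ^ 2) ≤
      ∑ r, ∑ s, ∑ i, ∑ j, ∑ k, ∑ l, tM R i j k l * (b r i * c s j * b r k * c s l) := by
    refine le_trans (le_of_eq ?_) (Finset.sum_le_sum fun r _ => Finset.sum_le_sum fun s _ => e2 r s)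
    rw [Finset.sum_mul_sum, Finset.mul_sum]
    refine Finset.sum_congr rfl fun r _ => ?_
    rw [Finset.mul_sum]
  have n1 : ∀ i : Fin 3, lo (nx i) ≠ lo (pv i) := by decide
  have n2 : ∀ i : Fin 3, hi (nx i) ≠ hi (pv i) := by decide
  have e4 : h ≤ ∑ r, ∑ i, b r i ^ 2 := by
    have h1 : -bA R 0 0 = ∑ r, b r 0 * b r 0 := hb 0 0
    have h2 : bA R 0 0 ≤ -h := kb_apply hK (n1 0)
    have h3 : ∑ r, b r 0 * b r 0 ≤ ∑ r, ∑ i, b r i ^ 2 := by
      refine Finset.sum_le_sum fun r _ => ?_
      rw [← pow_two]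
      exact Finset.single_le_sum (f := fun i => b r i ^ 2) (fun i _ => sq_nonneg _) (Finset.mem_univ 0)
    linarith
  have e5 : h ≤ ∑ s, ∑ i, c s i ^ 2 := by
    have h1 : -bC R 0 0 = ∑ r, c r 0 * c r 0 := hc 0 0
    have h2 : bC R 0 0 ≤ -h := kb_apply hK (n2 0)
    have h3 : ∑ r, c r 0 * c r 0 ≤ ∑ r, ∑ i, c r i ^ 2 := by
      refine Finset.sum_le_sum fun r _ => ?_
      rw [← pow_two]
      exact Finset.single_le_sum (f := fun i => c r i ^ 2) (fun i _ => sq_nonneg _) (Finset.mem_univ 0)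
    linarith
  rw [e1]
  refine le_trans ?_ e3
  have e6 : h * h ≤ (∑ r, ∑ i, b r i ^ 2) * ∑ s, ∑ i, c s i ^ 2 := mul_le_mul e4 e5 hh (le_trans hh e4)
  have e7 := mul_le_mul_of_nonneg_left e6 hh
  refine le_trans (le_of_eq ?_) e7
  ring

/-- the mixed part: the theorem on `3 × 3` matrices -/
theorem t33_QP {R : Arr 6} (hR : IsAlgCurv R) (hs : Ty (fun i => decide (i.1 < 3)) R) (hK : KB 0 R) :
    0 ≤ H91.Mat3.QP (tM R) := by
  refine H91.Mat3.QP_nonneg (tM R) (fun i k j l => ?_) fun x y => ?_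
  · show -R (lo i) (hi k) (lo j) (hi l) = -R (lo j) (hi l) (lo i) (hi k)
    rw [hR.pair]
  · have h1 : ∀ a b : Fin 3 → ℝ, 0 ≤ ∑ i, ∑ j, ∑ k, ∑ l, tM R i j k l * (a i * b j * a k * b l) := by
      intro a b
      have h2 := t33_val hK a b
      rw [zero_mul] at h2
      exact h2
    have h2 : (∑ i, ∑ k, ∑ j, ∑ l, ((tM R i k j l : ℝ) : ℂ) *
        (x i * y k * (starRingEnd ℂ) (x j) * (starRingEnd ℂ) (y l))).re =
        ∑ i, ∑ j, ∑ k, ∑ l, tM R i j k l * (((x i).re * (x k).re + (x i).im * (x k).im) *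
          ((y j).re * (y l).re + (y j).im * (y l).im)) -
        ∑ i, ∑ j, ∑ k, ∑ l, tM R i j k l * (((x i).im * (x k).re - (x i).re * (x k).im) *
          ((y j).im * (y l).re - (y j).re * (y l).im)) := by
      rw [← Finset.sum_sub_distrib, Complex.re_sum]
      refine Finset.sum_congr rfl fun i _ => ?_
      rw [← Finset.sum_sub_distrib, Complex.re_sum]
      refine Finset.sum_congr rfl fun j _ => ?_
      rw [← Finset.sum_sub_distrib, Complex.re_sum]
      refine Finset.sum_congr rfl fun k _ => ?_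
      rw [← Finset.sum_sub_distrib, Complex.re_sum]
      refine Finset.sum_congr rfl fun l _ => ?_
      rw [Complex.re_ofReal_mul]
      simp only [Complex.mul_re, Complex.mul_im, Complex.conj_re, Complex.conj_im]
      ring
    have h3 : ∑ i, ∑ j, ∑ k, ∑ l, tM R i j k l * (((x i).im * (x k).re - (x i).re * (x k).im) *
          ((y j).im * (y l).re - (y j).re * (y l).im)) = 0 := by
      obtain ⟨S, hS⟩ : ∃ S, S = ∑ i, ∑ j, ∑ k, ∑ l, tM R i j k l * (((x i).im * (x k).re - (x i).re * (x k).im) *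
          ((y j).im * (y l).re - (y j).re * (y l).im)) := ⟨_, rfl⟩
      have h4 : S = -S := by
        rw [hS]
        have h5 : ∑ i, ∑ j, ∑ k, ∑ l, tM R i j k l * (((x i).im * (x k).re - (x i).re * (x k).im) *
            ((y j).im * (y l).re - (y j).re * (y l).im)) = ∑ k, ∑ j, ∑ i, ∑ l, tM R i j k l *
            (((x i).im * (x k).re - (x i).re * (x k).im) * ((y j).im * (y l).re - (y j).re * (y l).im)) := by
          calc _ = ∑ i, ∑ k, ∑ j, ∑ l, tM R i j k l * (((x i).im * (x k).re - (x i).re * (x k).im) *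
                ((y j).im * (y l).re - (y j).re * (y l).im)) := Finset.sum_congr rfl fun i _ => Finset.sum_comm
            _ = ∑ k, ∑ i, ∑ j, ∑ l, tM R i j k l * (((x i).im * (x k).re - (x i).re * (x k).im) *
                ((y j).im * (y l).re - (y j).re * (y l).im)) := Finset.sum_comm
            _ = _ := Finset.sum_congr rfl fun k _ => Finset.sum_comm
        calc _ = _ := h5
          _ = -∑ i, ∑ j, ∑ k, ∑ l, tM R i j k l * (((x i).im * (x k).re - (x i).re * (x k).im) *
            ((y j).im * (y l).re - (y j).re * (y l).im)) := by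
            rw [← Finset.sum_neg_distrib]
            refine Finset.sum_congr rfl fun i _ => ?_
            rw [← Finset.sum_neg_distrib]
            refine Finset.sum_congr rfl fun j _ => ?_
            rw [← Finset.sum_neg_distrib]
            refine Finset.sum_congr rfl fun k _ => ?_
            rw [← Finset.sum_neg_distrib]
            refine Finset.sum_congr rfl fun l _ => ?_
            rw [t33_symm hR hs k j i l]
            ring
      rw [← hS]
      linarith
    rw [h2, h3, sub_zero]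
    have h4 : ∑ i, ∑ j, ∑ k, ∑ l, tM R i j k l * (((x i).re * (x k).re + (x i).im * (x k).im) *
          ((y j).re * (y l).re + (y j).im * (y l).im)) =
        (∑ i, ∑ j, ∑ k, ∑ l, tM R i j k l * ((x i).re * (y j).re * (x k).re * (y l).re)) +
        (∑ i, ∑ j, ∑ k, ∑ l, tM R i j k l * ((x i).re * (y j).im * (x k).re * (y l).im)) +
        ((∑ i, ∑ j, ∑ k, ∑ l, tM R i j k l * ((x i).im * (y j).re * (x k).im * (y l).re)) +
        (∑ i, ∑ j, ∑ k, ∑ l, tM R i j k l * ((x i).im * (y j).im * (x k).im * (y l).im))) := by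
      simp only [← Finset.sum_add_distrib]
      refine Finset.sum_congr rfl fun i _ => Finset.sum_congr rfl fun j _ => Finset.sum_congr rfl fun k _ =>
        Finset.sum_congr rfl fun l _ => ?_
      ring
    rw [h4]
    exact add_nonneg (add_nonneg (h1 (fun i => (x i).re) fun i => (y i).re) (h1 (fun i => (x i).re) fun i => (y i).im))
      (add_nonneg (h1 (fun i => (x i).im) fun i => (y i).re) (h1 (fun i => (x i).im) fun i => (y i).im))

theorem kb_zero {R : Arr 6} {h : ℝ} (hh : 0 ≤ h) (hK : KB h R) : KB 0 R := by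
  intro v w
  have h1 := hK v w
  have h2 := mul_nonneg hh (t33_area v w)
  linarith

/-- **Two classes of three indices.** -/
theorem case_33 {R : Arr 6} (hR : IsAlgCurv R) {h : ℝ} (hh : 0 ≤ h) (hK : KB h R)
    (hs : Ty (fun i => decide (i.1 < 3)) R) : gb R ≤ -(384 * h ^ 3) := by
  rw [t33_gb hR hs]
  have h1 := t33_QP hR hs (kb_zero hh hK)
  have h2 := t33_sep hR hh hK
  linarith

end H21C
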