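import Pool.Agent.Lib.H21C.T33
import Pool.Agent.Lib.H30K.P16
import Pool.Agent.Lib.H56C.Stmt

/-!
# T33B: a class of three indices in dimension six

`case_33'`: `Ty s R` for any `s` with three indices `s i = true` (a permutation of the indices, as in `H30K.case_kr`).
`case_cl3`: a Codazzi tensor with an eigenvalue of multiplicity three in dimension six (the other
three eigenvalues are arbitrary).
-/

set_option autoImplicit false

open scoped ContDiff Topology Manifold
open Set

namespace H21C

open H31R H79G H60E H30K
open Pool.Agent.H69Hopf (Arr IsAlgCurv ev area2)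

theorem case_33' {R : Arr 6} (hR : IsAlgCurv R) {h : ℝ} (hh : 0 ≤ h) (hK : KB h R) {s : Fin 6 → Bool} (hs : Ty s R)
    (hc : (Finset.univ.filter fun i => s i = true).card = 3) : gb R ≤ -(384 * h ^ 3) := by
  have c1 : Fintype.card {i : Fin 6 // i.1 < 3} = 3 := by decide
  have c2 : Fintype.card {i : Fin 6 // s i = true} = 3 := by
    rw [Fintype.card_subtype, hc]
  let e0 : {i : Fin 6 // i.1 < 3} ≃ {i : Fin 6 // s i = true} :=
    Fintype.equivOfCardEq (c1.trans c2.symm)
  obtain ⟨e, he⟩ : ∃ e : Equiv.Perm (Fin 6), e = e0.extendSubtype := ⟨_, rfl⟩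
  have hse : ∀ i : Fin 6, s (e i) = decide (i.1 < 3) := by
    intro i
    by_cases hi : i.1 < 3
    · rw [he, e0.extendSubtype_mem i hi]
      simp [hi]
    · have := e0.extendSubtype_not_mem i hi
      rw [he]
      have h3 : s (e0.extendSubtype i) = false := by simpa using this
      rw [h3]
      simp [hi]
  have g3 : Ty (fun i => decide (i.1 < 3)) (fun i j k l => R (e i) (e j) (e k) (e l)) := by
    intro i j k l hne
    have := hs _ _ _ _ hne
    simpa only [hse] using this
  have g4 := case_33 (algCurv_perm hR e) hh (kb_perm hK e) g3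
  rwa [gb_perm] at g4

/-- an eigenvalue of multiplicity three -/
theorem case_cl3 {R : Arr 6} (hR : IsAlgCurv R) {h : ℝ} (hh : 0 ≤ h) (hK : KB h R) {β : Fin 6 → ℝ} (hc : Cyc β R)
    {p : Fin 6} (h3 : H56C.cl β p = 3) : gb R ≤ -(384 * h ^ 3) := by
  classical
  refine case_33' hR hh hK (s := fun i => decide (β i = β p)) ?_ ?_
  · intro i j k l hne
    rcases P1_zero hR hc hne with ⟨h1, h2⟩ | ⟨h1, h2⟩
    · left
      refine ⟨?_, ?_⟩
      · show decide (β i = β p) = decide (β k = β p)
        rw [h1]
      · show decide (β j = β p) = decide (β l = β p)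
        rw [h2]
    · right
      refine ⟨?_, ?_⟩
      · show decide (β i = β p) = decide (β l = β p)
        rw [h1]
      · show decide (β j = β p) = decide (β k = β p)
        rw [h2]
  · unfold H56C.cl at h3
    rw [← h3]
    congr 1
    ext i
    simp

end H21C
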